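import Pool.Agent.KWG.M3

/-!
# MP_76d8ff_co: the class sizes determine the keyword substitution graph

If the numbers of classes of size 1 and of size 4 of two keywords agree for some length `n`, then the
two graphs are isomorphic.
-/

namespace Pool.Agent.Results.MP_76d8ff_co.ClassCounts

open Pool.Agent.KWG

theorem result : ∀ (n : ℕ), 1 ≤ n → ∀ (m m' : ℕ) (a : Fin (m + 1) → Bool) (b : Fin (m' + 1) → Bool),
    classCount (KG n m a) 1 = classCount (KG n m' b) 1 →
    classCount (KG n m a) 4 = classCount (KG n m' b) 4 →
    Nonempty (KG n m a ≃g KG n m' b) :=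
  fun _ hn _ _ a b h1 h4 => kwg_main hn a b h1 h4

end Pool.Agent.Results.MP_76d8ff_co.ClassCounts
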